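import Pool.Agent.TH703.HU.Stm

set_option autoImplicit false

open MeasureTheory Set Metric Filter Topology
open scoped ENNReal Real Convolution

noncomputable section

namespace Pool.Agent.TH742.HU

open Pool.Agent.TH304.MI Pool.Agent.TH703.HU

/-! ## Mollification -/

lemma moll (f : ℂ → ℝ) (hf : Measurable f) (M : ℝ) (hM : ∀ x, |f x| ≤ M) (K : Set ℂ)
    (hK : IsCompact K) (hfK : ∀ x, x ∉ K → f x = 0) :
    ∃ g : ℕ → ℂ → ℝ, (∀ n, ContDiff ℝ 1 (g n)) ∧ (∀ n, HasCompactSupport (g n)) ∧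
      (∀ (n : ℕ) (x : ℂ) (c : ℝ), 0 ≤ c → (∀ y, dist y x < 1 / ((n : ℝ) + 1) → |f y| ≤ c) →
        |g n x| ≤ c) ∧
      (∀ (n : ℕ) (x : ℂ), x ∈ tsupport (g n) → ∃ y ∈ K, dist x y ≤ 1 / ((n : ℝ) + 1)) ∧
      (∀ᵐ x : ℂ, Tendsto (fun n => g n x) atTop (𝓝 (f x))) := by
  have hint : Integrable f := by
    have h1 : Integrable (K.indicator (fun _ : ℂ => M)) := by
      rw [integrable_indicator_iff hK.measurableSet]
      exact integrableOn_const hK.measure_lt_top.ne enorm_ne_top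
    refine h1.mono' hf.aestronglyMeasurable (Eventually.of_forall fun x => ?_)
    by_cases hx : x ∈ K
    · rw [indicator_of_mem hx]; exact hM x
    · rw [indicator_of_notMem hx, hfK x hx]; simp
  let φ : ℕ → ContDiffBump (0 : ℂ) := fun n =>
    ⟨1 / (2 * ((n : ℝ) + 1)), 1 / ((n : ℝ) + 1), by positivity, by
      apply one_div_lt_one_div_of_lt (by positivity)
      have : (0 : ℝ) ≤ n := n.cast_nonneg
      linarith⟩
  have hout : ∀ n, (φ n).rOut = 1 / ((n : ℝ) + 1) := fun n => rfl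
  have hin : ∀ n, (φ n).rIn = 1 / (2 * ((n : ℝ) + 1)) := fun n => rfl
  let g : ℕ → ℂ → ℝ := fun n => ((φ n).normed volume ⋆[ContinuousLinearMap.lsmul ℝ ℝ, volume] f)
  have hbd : ∀ (n : ℕ) (x : ℂ) (c : ℝ), 0 ≤ c → (∀ y, dist y x < 1 / ((n : ℝ) + 1) → |f y| ≤ c) →
        |g n x| ≤ c := by
    intro n x c hc h
    have h1 := dist_convolution_le (μ := volume) (f := (φ n).normed volume) (g := f) (x₀ := x)
      (R := (φ n).rOut) (ε := c) (z₀ := (0 : ℝ)) hc (φ n).support_normed_eq.subset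
      (φ n).nonneg_normed ((φ n).integral_normed) hf.aestronglyMeasurable (by
        intro y hy
        rw [mem_ball, hout] at hy
        simpa using h y hy)
    simpa using h1
  have hsup : ∀ n, tsupport (g n) ⊆ cthickening (1 / ((n : ℝ) + 1)) K := by
    intro n
    refine closure_minimal ?_ isClosed_cthickening
    intro x hx
    by_contra hne
    apply hx
    have h1 : |g n x| ≤ 0 := by
      apply hbd n x 0 le_rfl
      intro y hy
      have : y ∉ K := by
        intro hyK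
        apply hne
        apply thickening_subset_cthickening
        rw [mem_thickening_iff]
        exact ⟨y, hyK, by rwa [dist_comm]⟩
      rw [hfK y this]; simp
    have h2 := abs_nonneg (g n x)
    exact abs_eq_zero.1 (le_antisymm h1 h2)
  refine ⟨g, ?_, ?_, hbd, ?_, ?_⟩
  · intro n
    exact (φ n).hasCompactSupport_normed.contDiff_convolution_left (n := 1)
      (ContinuousLinearMap.lsmul ℝ ℝ) ((φ n).contDiff_normed) hint.locallyIntegrable
  · intro n
    exact hK.cthickening.of_isClosed_subset (isClosed_tsupport _) (hsup n)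
  · intro n x hx
    have h1 := hsup n hx
    rw [hK.cthickening_eq_biUnion_closedBall (by positivity), mem_iUnion₂] at h1
    obtain ⟨y, hy, hxy⟩ := h1
    exact ⟨y, hy, hxy⟩
  · refine ContDiffBump.ae_convolution_tendsto_right_of_locallyIntegrable (K := 2) ?_ ?_
      hint.locallyIntegrable
    · simp_rw [hout]
      exact tendsto_one_div_add_atTop_nhds_zero_nat
    · refine Eventually.of_forall fun n => ?_
      rw [hout, hin]
      have : (0 : ℝ) < (n : ℝ) + 1 := by positivity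
      field_simp
      norm_num

/-! ## The mean value theorem -/

lemma hder {A : Set ℂ} {ψ : ℂ → ℝ} (hψ : ContDiff ℝ 1 ψ) (hc : HasCompactSupport ψ) (v : ℂ)
    (t : ℝ) : HasDerivAt (fun t : ℝ => ∫ x in A, ψ (x - t • v))
      (∫ x in A, -(fderiv ℝ ψ (x - t • v) v)) t := by
  obtain ⟨C, hC⟩ : ∃ C, ∀ x, ‖fderiv ℝ ψ x‖ ≤ C :=
    (hc.fderiv ℝ).exists_bound_of_continuous (hψ.continuous_fderiv (by norm_num))
  have hC0 : 0 ≤ C := (norm_nonneg _).trans (hC 0)
  obtain ⟨R, hR⟩ : ∃ R : ℝ, tsupport ψ ⊆ closedBall 0 R := hc.isBounded.subset_closedBall 0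
  have hfd0 : ∀ x, R < ‖x‖ → fderiv ℝ ψ x = 0 := by
    intro x hx
    by_contra hne
    have h2 : x ∈ tsupport ψ := support_fderiv_subset ℝ (f := ψ) hne
    have h3 := hR h2
    rw [mem_closedBall_zero_iff] at h3
    linarith
  refine (hasDerivAt_integral_of_dominated_loc_of_deriv_le (μ := volume.restrict A)
    (F := fun t x => ψ (x - t • v)) (F' := fun t x => -(fderiv ℝ ψ (x - t • v) v))
    (bound := fun x => (closedBall (0 : ℂ) (R + (|t| + 1) * ‖v‖)).indicator
      (fun _ => C * ‖v‖) x)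
    (s := ball t 1) (ball_mem_nhds t one_pos) ?_ ?_ ?_ ?_ ?_ ?_).2
  · exact Eventually.of_forall fun s =>
      (hψ.continuous.comp (by fun_prop)).aestronglyMeasurable
  · have h1 : Continuous (fun x : ℂ => ψ (x - t • v)) := hψ.continuous.comp (by fun_prop)
    have h2 : HasCompactSupport (fun x : ℂ => ψ (x - t • v)) := by
      have := hc.comp_homeomorph (Homeomorph.subRight (t • v))
      exact this
    exact (h1.integrable_of_hasCompactSupport h2).integrableOn
  · have h1 : Continuous (fun x : ℂ => fderiv ℝ ψ (x - t • v) v) :=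
      ((hψ.continuous_fderiv (by norm_num)).comp (by fun_prop)).clm_apply continuous_const
    exact h1.neg.aestronglyMeasurable
  · refine Eventually.of_forall fun x s hs => ?_
    rw [norm_neg]
    by_cases hx : x ∈ closedBall (0 : ℂ) (R + (|t| + 1) * ‖v‖)
    · rw [indicator_of_mem hx]
      calc ‖fderiv ℝ ψ (x - s • v) v‖ ≤ ‖fderiv ℝ ψ (x - s • v)‖ * ‖v‖ :=
            ContinuousLinearMap.le_opNorm _ _
        _ ≤ C * ‖v‖ := by gcongr; exact hC _
    · rw [indicator_of_notMem hx]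
      rw [mem_closedBall, dist_zero_right, not_le] at hx
      have h3 : ‖s • v‖ ≤ (|t| + 1) * ‖v‖ := by
        rw [norm_smul, Real.norm_eq_abs]
        have h4 : |s| ≤ |t| + 1 := by
          rw [mem_ball, Real.dist_eq] at hs
          have := abs_sub_abs_le_abs_sub s t
          linarith
        gcongr
      have h5 : R < ‖x - s • v‖ := by
        have := norm_sub_norm_le x (s • v)
        linarith
      rw [hfd0 _ h5]; simp
  · rw [integrable_indicator_iff measurableSet_closedBall]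
    refine integrableOn_const ?_ ?_
    · exact ((Measure.restrict_apply_le _ _).trans_lt measure_closedBall_lt_top).ne
    · exact enorm_ne_top
  · refine Eventually.of_forall fun x s _ => ?_
    have h1 : HasDerivAt (fun s : ℝ => x - s • v) (-v) s := by
      simpa using ((hasDerivAt_id s).smul_const v).const_sub x
    have h2 := ((hψ.differentiable (by norm_num)) (x - s • v)).hasFDerivAt.comp_hasDerivAt s h1
    rw [map_neg] at h2
    exact h2

lemma sq2 (a b c : ℝ) (ha : |a| ≤ c) (hb : |b| ≤ c) :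
    ‖(((1 / √2 * a : ℝ) : ℂ) + ((1 / √2 * b : ℝ) : ℂ) * Complex.I)‖ ≤ c := by
  have hc : 0 ≤ c := (abs_nonneg a).trans ha
  rw [Complex.norm_add_mul_I]
  apply Real.sqrt_le_iff.2
  refine ⟨hc, ?_⟩
  have h2 : (1 / √2 : ℝ) ^ 2 = 1 / 2 := by
    rw [div_pow, one_pow, Real.sq_sqrt (by norm_num)]
  have h3 : a ^ 2 ≤ c ^ 2 := sq_le_sq.2 (by rwa [abs_of_nonneg hc])
  have h4 : b ^ 2 ≤ c ^ 2 := sq_le_sq.2 (by rwa [abs_of_nonneg hc])
  rw [mul_pow, mul_pow, h2]
  linarith

lemma key1 {w : ℂ → ℝ} {A : Set ℂ} {P : ℝ} (hP : PW w A P) {h : ℝ} (hh : 0 < h)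
    {g₁ g₂ : ℂ → ℝ} (hg₁ : ContDiff ℝ 1 g₁) (hg₂ : ContDiff ℝ 1 g₂) (c₁ : HasCompactSupport g₁)
    (c₂ : HasCompactSupport g₂)
    (b₁ : ∀ x : ℂ, ∀ t ∈ Icc (0 : ℝ) 1, |g₁ (x - t • (h : ℂ))| ≤ w x)
    (b₂ : ∀ x : ℂ, ∀ t ∈ Icc (0 : ℝ) 1, |g₂ (x - t • ((h : ℂ) * Complex.I))| ≤ w x)
    (s₁ : ∀ x ∈ tsupport g₁, ∀ t ∈ Icc (0 : ℝ) 1, 0 < w (x + t • (h : ℂ)))
    (s₂ : ∀ x ∈ tsupport g₂, ∀ t ∈ Icc (0 : ℝ) 1, 0 < w (x + t • ((h : ℂ) * Complex.I))) :
    ((∫ x in A, g₁ x) - ∫ x in A, g₁ (x - h)) +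
      ((∫ x in A, g₂ x) - ∫ x in A, g₂ (x - h * Complex.I)) ≤ √2 * h * P := by
  have hd := fun t => (hder (A := A) hg₁ c₁ (h : ℂ) t).add
    (hder (A := A) hg₂ c₂ ((h : ℂ) * Complex.I) t)
  obtain ⟨t, ht, hslope⟩ := exists_hasDerivAt_eq_slope
    ((fun t : ℝ => ∫ x in A, g₁ (x - t • (h : ℂ))) +
      fun t : ℝ => ∫ x in A, g₂ (x - t • ((h : ℂ) * Complex.I)))
    (fun t => (∫ x in A, -(fderiv ℝ g₁ (x - t • (h : ℂ)) (h : ℂ))) +
      ∫ x in A, -(fderiv ℝ g₂ (x - t • ((h : ℂ) * Complex.I)) ((h : ℂ) * Complex.I)))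
    (zero_lt_one (α := ℝ))
    (fun t _ => (hd t).continuousAt.continuousWithinAt) (fun t _ => hd t)
  simp only [zero_smul, sub_zero, one_smul, div_one, Pi.add_apply] at hslope
  have ht' : t ∈ Icc (0 : ℝ) 1 := ⟨ht.1.le, ht.2.le⟩
  let a : ℂ → ℝ := fun x => 1 / √2 * g₁ (x - t • (h : ℂ))
  let b : ℂ → ℝ := fun x => 1 / √2 * g₂ (x - t • ((h : ℂ) * Complex.I))
  let Y : ℂ → ℂ := fun x => (a x : ℂ) + (b x : ℂ) * Complex.I
  have ha : ContDiff ℝ 1 a := contDiff_const.mul (hg₁.comp (contDiff_id.sub contDiff_const))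
  have hb : ContDiff ℝ 1 b := contDiff_const.mul (hg₂.comp (contDiff_id.sub contDiff_const))
  have hac : HasCompactSupport a :=
    (c₁.comp_homeomorph (Homeomorph.subRight (t • (h : ℂ)))).mul_left (f := fun _ => 1 / √2)
  have hbc : HasCompactSupport b :=
    (c₂.comp_homeomorph (Homeomorph.subRight (t • ((h : ℂ) * Complex.I)))).mul_left
      (f := fun _ => 1 / √2)
  have hY : TW w Y := by
    refine ⟨?_, ?_, ?_, ?_⟩
    · exact (Complex.ofRealCLM.contDiff.comp ha).add
        ((Complex.ofRealCLM.contDiff.comp hb).mul contDiff_const)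
    · have e1 : HasCompactSupport (fun x => (a x : ℂ)) := hac.comp_left (g := fun r : ℝ => (r : ℂ)) (by simp)
      have e2 : HasCompactSupport (fun x => (b x : ℂ) * Complex.I) :=
        (hbc.comp_left (g := fun r : ℝ => (r : ℂ)) (by simp)).mul_right (f' := fun _ => Complex.I)
      exact e1.add e2
    · have e1 : tsupport Y ⊆ ((fun x => x - t • (h : ℂ)) ⁻¹' tsupport g₁) ∪
          ((fun x => x - t • ((h : ℂ) * Complex.I)) ⁻¹' tsupport g₂) := by
        refine closure_minimal ?_ (((isClosed_tsupport g₁).preimage (by fun_prop)).union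
          ((isClosed_tsupport g₂).preimage (by fun_prop)))
        intro x hx
        by_contra hne
        rw [mem_union, not_or] at hne
        have e2 : g₁ (x - t • (h : ℂ)) = 0 := image_eq_zero_of_notMem_tsupport hne.1
        have e3 : g₂ (x - t • ((h : ℂ) * Complex.I)) = 0 := image_eq_zero_of_notMem_tsupport hne.2
        apply hx
        simp only [Y, a, b, e2, e3]
        simp
      intro x hx
      rcases e1 hx with h1 | h1
      · have := s₁ _ h1 t ht'
        simpa using this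
      · have := s₂ _ h1 t ht'
        simpa using this
    · intro x
      exact sq2 _ _ _ (b₁ x t ht') (b₂ x t ht')
  have hdiv : ∀ x, dv2 Y x = 1 / √2 * (fderiv ℝ g₁ (x - t • (h : ℂ)) 1) +
      1 / √2 * (fderiv ℝ g₂ (x - t • ((h : ℂ) * Complex.I)) Complex.I) := by
    intro x
    have h1 : HasFDerivAt a ((1 / √2) • fderiv ℝ g₁ (x - t • (h : ℂ))) x := by
      have h8 : HasFDerivAt (fun x : ℂ => x - t • (h : ℂ)) (ContinuousLinearMap.id ℝ ℂ) x :=
        (hasFDerivAt_id x).sub_const _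
      have h9 := ((hg₁.differentiable (by norm_num)) (x - t • (h : ℂ))).hasFDerivAt.comp x h8
      rw [ContinuousLinearMap.comp_id] at h9
      exact h9.const_mul _
    have h2 : HasFDerivAt b ((1 / √2) • fderiv ℝ g₂ (x - t • ((h : ℂ) * Complex.I))) x := by
      have h8 : HasFDerivAt (fun x : ℂ => x - t • ((h : ℂ) * Complex.I))
          (ContinuousLinearMap.id ℝ ℂ) x :=
        (hasFDerivAt_id x).sub_const _
      have h9 := ((hg₂.differentiable (by norm_num))
        (x - t • ((h : ℂ) * Complex.I))).hasFDerivAt.comp x h8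
      rw [ContinuousLinearMap.comp_id] at h9
      exact h9.const_mul _
    have h3 : HasFDerivAt Y (Complex.ofRealCLM.comp ((1 / √2) • fderiv ℝ g₁ (x - t • (h : ℂ))) +
        Complex.I • Complex.ofRealCLM.comp
          ((1 / √2) • fderiv ℝ g₂ (x - t • ((h : ℂ) * Complex.I)))) x :=
      (Complex.ofRealCLM.hasFDerivAt.comp x h1).add
        ((Complex.ofRealCLM.hasFDerivAt.comp x h2).mul_const Complex.I)
    have hk : √2 / 2 = (√2)⁻¹ := by
      have : √2 * √2 = 2 := Real.mul_self_sqrt (by norm_num)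
      field_simp
      nlinarith
    unfold dv2
    rw [h3.fderiv]
    simp [hk]
  have h6 := hP Y hY
  have i1 : Integrable (fun x => fderiv ℝ g₁ (x - t • (h : ℂ)) 1) := by
    have e1 : Continuous (fun x : ℂ => fderiv ℝ g₁ x 1) :=
      (hg₁.continuous_fderiv (by norm_num)).clm_apply continuous_const
    have e2 : HasCompactSupport (fun x : ℂ => fderiv ℝ g₁ x 1) :=
      (c₁.fderiv ℝ).comp_left (g := fun L : ℂ →L[ℝ] ℝ => L 1) (by simp)
    exact (e1.integrable_of_hasCompactSupport e2).comp_sub_right _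
  have i2 : Integrable (fun x => fderiv ℝ g₂ (x - t • ((h : ℂ) * Complex.I)) Complex.I) := by
    have e1 : Continuous (fun x : ℂ => fderiv ℝ g₂ x Complex.I) :=
      (hg₂.continuous_fderiv (by norm_num)).clm_apply continuous_const
    have e2 : HasCompactSupport (fun x : ℂ => fderiv ℝ g₂ x Complex.I) :=
      (c₂.fderiv ℝ).comp_left (g := fun L : ℂ →L[ℝ] ℝ => L Complex.I) (by simp)
    exact (e1.integrable_of_hasCompactSupport e2).comp_sub_right _
  simp_rw [hdiv] at h6
  rw [integral_add (i1.const_mul _).integrableOn (i2.const_mul _).integrableOn,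
    integral_const_mul, integral_const_mul] at h6
  have e1 : ∀ x, fderiv ℝ g₁ (x - t • (h : ℂ)) (h : ℂ) = h * fderiv ℝ g₁ (x - t • (h : ℂ)) 1 := by
    intro x
    have : (h : ℂ) = h • (1 : ℂ) := by simp
    conv_lhs => rw [this]
    rw [map_smul]
    simp
  have e2 : ∀ x, fderiv ℝ g₂ (x - t • ((h : ℂ) * Complex.I)) ((h : ℂ) * Complex.I) =
      h * fderiv ℝ g₂ (x - t • ((h : ℂ) * Complex.I)) Complex.I := by
    intro x
    have : (h : ℂ) * Complex.I = h • Complex.I := by simp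
    conv_lhs => rw [this]
    rw [map_smul]
    simp
  rw [integral_neg, integral_neg] at hslope
  simp_rw [e1, e2] at hslope
  rw [integral_const_mul, integral_const_mul] at hslope
  have h2 : (0 : ℝ) < √2 := by positivity
  set I₁ := ∫ x in A, fderiv ℝ g₁ (x - t • (h : ℂ)) 1
  set I₂ := ∫ x in A, fderiv ℝ g₂ (x - t • ((h : ℂ) * Complex.I)) Complex.I
  have h7 : I₁ + I₂ ≤ √2 * P := by
    have : √2 * (1 / √2 * I₁ + 1 / √2 * I₂) = I₁ + I₂ := by field_simp
    rw [← this]
    gcongr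
  have h8 : h * (I₁ + I₂) ≤ h * (√2 * P) := by gcongr
  linarith

/-! ## The weight near the support -/

lemma near {w u : ℂ → ℝ} (hw : Continuous w) (hw0 : ∀ x, 0 ≤ w x) (hc : HasCompactSupport u)
    (hs : tsupport u ⊆ {x | 0 < w x}) (hu0 : ∀ x, 0 ≤ u x) (hu : ∀ x, u x ≤ w x) {δ : ℝ}
    (hδ : 0 < δ) (hδ1 : δ < 1) : ∃ r : ℝ, 0 < r ∧ ∀ x y : ℂ, dist x y ≤ r →
      (1 - δ) * u y ≤ w x ∧ (y ∈ tsupport u → 0 < w x) := by
  rcases (tsupport u).eq_empty_or_nonempty with h0 | hne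
  · refine ⟨1, one_pos, fun x y _ => ⟨?_, fun hy => by rw [h0] at hy; exact hy.elim⟩⟩
    have : u y = 0 := image_eq_zero_of_notMem_tsupport (by rw [h0]; exact fun h => h)
    rw [this, mul_zero]; exact hw0 x
  · have hK : IsCompact (tsupport u) := hc
    obtain ⟨z, hz, hmin⟩ := hK.exists_isMinOn hne hw.continuousOn
    have hm : 0 < w z := hs hz
    have hK1 : IsCompact (cthickening 1 (tsupport u)) := hK.cthickening
    have huc := hK1.uniformContinuousOn_of_continuous hw.continuousOn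
    rw [Metric.uniformContinuousOn_iff] at huc
    obtain ⟨η, hη, H⟩ := huc (δ * w z) (by positivity)
    refine ⟨min (η / 2) 1, by positivity, fun x y hxy => ?_⟩
    have hr1 : dist x y < η := by
      have := min_le_left (η / 2) (1 : ℝ)
      linarith
    have hr2 : dist x y ≤ 1 := hxy.trans (min_le_right _ _)
    by_cases hy : y ∈ tsupport u
    · have hx1 : x ∈ cthickening 1 (tsupport u) := by
        exact mem_cthickening_of_dist_le x y 1 _ hy hr2
      have hy1 : y ∈ cthickening 1 (tsupport u) := self_subset_cthickening _ hy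
      have h1 := H x hx1 y hy1 hr1
      rw [Real.dist_eq, abs_lt] at h1
      have h2 : w z ≤ w y := hmin hy
      have h3 := hu y
      have h4 := hu0 y
      have h5 : (1 - δ) * w y ≤ w x := by nlinarith
      have h6 : (1 - δ) * u y ≤ (1 - δ) * w y := by
        apply mul_le_mul_of_nonneg_left h3; linarith
      refine ⟨h6.trans h5, fun _ => ?_⟩
      have : 0 < (1 - δ) * w y := mul_pos (by linarith) (by linarith)
      linarith
    · refine ⟨?_, fun h => absurd h hy⟩
      rw [image_eq_zero_of_notMem_tsupport hy, mul_zero]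
      exact hw0 x

/-! ## The difference quotients -/

/-- change of the indicator -/
def sg (A : Set ℂ) (v x : ℂ) : ℝ :=
  A.indicator (fun _ => (1 : ℝ)) x - A.indicator (fun _ => (1 : ℝ)) (x + v)

lemma sg_abs (A : Set ℂ) (v x : ℂ) : |sg A v x| ≤ 1 := by
  unfold sg
  by_cases h1 : x ∈ A <;> by_cases h2 : x + v ∈ A <;> simp [h1, h2]

lemma sg_sq (A : Set ℂ) (v x : ℂ) : sg A v x * sg A v x = |sg A v x| := by
  unfold sg
  by_cases h1 : x ∈ A <;> by_cases h2 : x + v ∈ A <;> simp [h1, h2]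

lemma sg_meas {A : Set ℂ} (hA : MeasurableSet A) (v : ℂ) : Measurable (sg A v) := by
  have h1 : Measurable (A.indicator (fun _ => (1 : ℝ))) := measurable_const.indicator hA
  exact h1.sub (h1.comp (measurable_id.add_const v))

lemma shift {A : Set ℂ} (hA : MeasurableSet A) (v : ℂ) {g : ℂ → ℝ} (hg : Continuous g)
    (hc : HasCompactSupport g) :
    (∫ x in A, g x) - ∫ x in A, g (x - v) = ∫ x, g x * sg A v x := by
  have hi : Integrable g := hg.integrable_of_hasCompactSupport hc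
  have e1 : ∫ x in A, g x = ∫ x, g x * A.indicator (fun _ => (1 : ℝ)) x := by
    rw [← integral_indicator hA]
    congr 1; ext x
    by_cases hx : x ∈ A <;> simp [hx]
  have e2 : ∫ x in A, g (x - v) = ∫ x, g x * A.indicator (fun _ => (1 : ℝ)) (x + v) := by
    rw [← integral_indicator hA]
    rw [← integral_add_right_eq_self (fun x => A.indicator (fun x => g (x - v)) x) v]
    congr 1; ext x
    by_cases hx : x + v ∈ A <;> simp [hx]
  have h1 : Measurable (A.indicator (fun _ => (1 : ℝ))) := measurable_const.indicator hA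
  have hb : ∀ x, ‖A.indicator (fun _ => (1 : ℝ)) x‖ ≤ 1 := by
    intro x; by_cases hx : x ∈ A <;> simp [hx]
  have i1 : Integrable (fun x => g x * A.indicator (fun _ => (1 : ℝ)) x) :=
    hi.mul_bdd h1.aestronglyMeasurable (Eventually.of_forall hb)
  have i2 : Integrable (fun x => g x * A.indicator (fun _ => (1 : ℝ)) (x + v)) :=
    hi.mul_bdd (h1.comp (measurable_id.add_const v)).aestronglyMeasurable
      (Eventually.of_forall fun x => hb _)
  rw [e1, e2, ← integral_sub i1 i2]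
  congr 1; ext x
  unfold sg; ring

lemma lim {A K : Set ℂ} (hA : MeasurableSet A) (hK : IsCompact K) (v : ℂ) {M : ℝ} (hM0 : 0 ≤ M)
    {g : ℕ → ℂ → ℝ} {f : ℂ → ℝ} (h1 : ∀ n, ContDiff ℝ 1 (g n)) (hM : ∀ n x, |g n x| ≤ M)
    (h4 : ∀ (n : ℕ) (x : ℂ), x ∈ tsupport (g n) → ∃ y ∈ K, dist x y ≤ 1 / ((n : ℝ) + 1))
    (h5 : ∀ᵐ x : ℂ, Tendsto (fun n => g n x) atTop (𝓝 (f x))) :
    Tendsto (fun n => ∫ x, g n x * sg A v x) atTop (𝓝 (∫ x, f x * sg A v x)) := by
  have hK1 : IsCompact (cthickening 1 K) := hK.cthickening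
  refine tendsto_integral_of_dominated_convergence
    ((cthickening 1 K).indicator (fun _ : ℂ => M)) ?_ ?_ ?_ ?_
  · exact fun n => ((h1 n).continuous.measurable.mul (sg_meas hA v)).aestronglyMeasurable
  · rw [integrable_indicator_iff hK1.measurableSet]
    exact integrableOn_const hK1.measure_lt_top.ne enorm_ne_top
  · intro n
    refine Eventually.of_forall fun x => ?_
    rw [norm_mul, Real.norm_eq_abs, Real.norm_eq_abs]
    by_cases hx : x ∈ cthickening 1 K
    · rw [indicator_of_mem hx]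
      calc |g n x| * |sg A v x| ≤ M * 1 := by
            gcongr
            · exact hM n x
            · exact sg_abs A v x
        _ = M := mul_one M
    · rw [indicator_of_notMem hx]
      have : g n x = 0 := by
        apply image_eq_zero_of_notMem_tsupport
        intro hx1
        obtain ⟨y, hy, hxy⟩ := h4 n x hx1
        apply hx
        refine mem_cthickening_of_dist_le x y 1 _ hy (hxy.trans ?_)
        rw [div_le_one (by positivity)]
        have : (0 : ℝ) ≤ n := n.cast_nonneg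
        linarith
      rw [this]; simp
  · filter_upwards [h5] with x hx
    exact hx.mul_const _

lemma key2 {w u : ℂ → ℝ} {A : Set ℂ} {P δ r h : ℝ} (hw0 : ∀ x, 0 ≤ w x) (hu : Continuous u)
    (hc : HasCompactSupport u) (hu0 : ∀ x, 0 ≤ u x) (hA : MeasurableSet A) (hP : PW w A P)
    (hδ1 : δ < 1) (hr : 0 < r) (H : ∀ x y : ℂ, dist x y ≤ r →
      (1 - δ) * u y ≤ w x ∧ (y ∈ tsupport u → 0 < w x)) (hh : 0 < h) (hhr : h ≤ r / 2) :
    (1 - δ) * ((∫ x, u x * |sg A h x|) + ∫ x, u x * |sg A (h * Complex.I) x|) ≤ √2 * h * P := by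
  obtain ⟨M, hM⟩ := hc.exists_bound_of_continuous hu
  have hM0 : 0 ≤ M := (norm_nonneg _).trans (hM 0)
  have hδ0 : 0 ≤ 1 - δ := by linarith
  have hfm : ∀ v : ℂ, Measurable (fun x => (1 - δ) * u x * sg A v x) := fun v =>
    (measurable_const.mul hu.measurable).mul (sg_meas hA v)
  have hfb : ∀ v x, |(1 - δ) * u x * sg A v x| ≤ (1 - δ) * u x := by
    intro v x
    rw [abs_mul, abs_of_nonneg (mul_nonneg hδ0 (hu0 x))]
    exact mul_le_of_le_one_right (mul_nonneg hδ0 (hu0 x)) (sg_abs A v x)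
  have hfM : ∀ v x, |(1 - δ) * u x * sg A v x| ≤ (1 - δ) * M := by
    intro v x
    refine (hfb v x).trans ?_
    have := hM x
    rw [Real.norm_eq_abs, abs_of_nonneg (hu0 x)] at this
    gcongr
  have hf0 : ∀ v x, x ∉ tsupport u → (1 - δ) * u x * sg A v x = 0 := by
    intro v x hx
    rw [image_eq_zero_of_notMem_tsupport hx]; simp
  obtain ⟨g₁, a1, a2, a3, a4, a5⟩ := moll _ (hfm h) _ (hfM h) (tsupport u) hc (hf0 h)
  obtain ⟨g₂, d1, d2, d3, d4, d5⟩ := moll _ (hfm (h * Complex.I)) _ (hfM (h * Complex.I))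
    (tsupport u) hc (hf0 (h * Complex.I))
  have hM1 : 0 ≤ (1 - δ) * M := mul_nonneg hδ0 hM0
  have l1 := lim (A := A) hA (K := tsupport u) hc h hM1 a1 (fun n x => a3 n x _ hM1 fun y _ => hfM _ y)
    a4 a5
  have l2 := lim (A := A) hA (K := tsupport u) hc (h * Complex.I) hM1 d1
    (fun n x => d3 n x _ hM1 fun y _ => hfM _ y) d4 d5
  have hle : ∀ᶠ n : ℕ in atTop, (∫ x, g₁ n x * sg A h x) + (∫ x, g₂ n x * sg A (h * Complex.I) x) ≤
      √2 * h * P := by
    have h1 : ∀ᶠ n : ℕ in atTop, 1 / ((n : ℝ) + 1) < r / 2 :=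
      tendsto_one_div_add_atTop_nhds_zero_nat.eventually (gt_mem_nhds (by positivity))
    filter_upwards [h1] with n hn
    rw [← shift hA h (a1 n).continuous (a2 n), ← shift hA (h * Complex.I) (d1 n).continuous (d2 n)]
    have nh : ∀ t ∈ Icc (0 : ℝ) 1, ‖t • (h : ℂ)‖ ≤ r / 2 := by
      intro t ht
      rw [norm_smul, Real.norm_eq_abs, abs_of_nonneg ht.1, Complex.norm_real, Real.norm_eq_abs,
        abs_of_pos hh]
      nlinarith [ht.1, ht.2]
    have nh2 : ∀ t ∈ Icc (0 : ℝ) 1, ‖t • ((h : ℂ) * Complex.I)‖ ≤ r / 2 := by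
      intro t ht
      rw [norm_smul, norm_mul, Complex.norm_I, mul_one, Real.norm_eq_abs, abs_of_nonneg ht.1,
        Complex.norm_real, Real.norm_eq_abs, abs_of_pos hh]
      nlinarith [ht.1, ht.2]
    refine key1 hP hh (a1 n) (d1 n) (a2 n) (d2 n) ?_ ?_ ?_ ?_
    · intro x t ht
      refine a3 n _ _ (hw0 x) fun y hy => (hfb _ y).trans (H x y ?_).1
      have h3 := nh t ht
      have h4 : dist x y ≤ dist (x - t • (h : ℂ)) y + ‖t • (h : ℂ)‖ := by
        have := dist_triangle x (x - t • (h : ℂ)) y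
        have h5 : dist x (x - t • (h : ℂ)) = ‖t • (h : ℂ)‖ := by simp
        linarith
      rw [dist_comm] at hy
      linarith
    · intro x t ht
      refine d3 n _ _ (hw0 x) fun y hy => (hfb _ y).trans (H x y ?_).1
      have h3 := nh2 t ht
      have h4 : dist x y ≤ dist (x - t • ((h : ℂ) * Complex.I)) y + ‖t • ((h : ℂ) * Complex.I)‖ := by
        have := dist_triangle x (x - t • ((h : ℂ) * Complex.I)) y
        have h5 : dist x (x - t • ((h : ℂ) * Complex.I)) = ‖t • ((h : ℂ) * Complex.I)‖ := by simp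
        linarith
      rw [dist_comm] at hy
      linarith
    · intro x hx t ht
      obtain ⟨y, hy, hxy⟩ := a4 n x hx
      refine (H _ y ?_).2 hy
      have h3 := nh t ht
      have h4 : dist (x + t • (h : ℂ)) y ≤ ‖t • (h : ℂ)‖ + dist x y := by
        have := dist_triangle (x + t • (h : ℂ)) x y
        have h5 : dist (x + t • (h : ℂ)) x = ‖t • (h : ℂ)‖ := by simp
        linarith
      linarith
    · intro x hx t ht
      obtain ⟨y, hy, hxy⟩ := d4 n x hx
      refine (H _ y ?_).2 hy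
      have h3 := nh2 t ht
      have h4 : dist (x + t • ((h : ℂ) * Complex.I)) y ≤ ‖t • ((h : ℂ) * Complex.I)‖ + dist x y := by
        have := dist_triangle (x + t • ((h : ℂ) * Complex.I)) x y
        have h5 : dist (x + t • ((h : ℂ) * Complex.I)) x = ‖t • ((h : ℂ) * Complex.I)‖ := by simp
        linarith
      linarith
  have h9 := le_of_tendsto (l1.add l2) hle
  have e : ∀ v : ℂ, ∫ x, (1 - δ) * u x * sg A v x * sg A v x = (1 - δ) * ∫ x, u x * |sg A v x| := by
    intro v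
    rw [← integral_const_mul]
    congr 1; ext x
    rw [mul_assoc ((1 - δ) * u x), sg_sq]; ring
  rw [e, e] at h9
  linarith

/-! ## Fubini -/

lemma fub1 {G : ℂ → ℝ≥0∞} (hG : Measurable G) :
    ∫⁻ x, G x = ∫⁻ y : ℝ, ∫⁻ t : ℝ, G ⟨t, y⟩ := by
  rw [← (Complex.volume_preserving_equiv_real_prod.symm).lintegral_comp hG]
  rw [Measure.volume_eq_prod, lintegral_prod_symm']
  · rfl
  · exact hG.comp Complex.measurableEquivRealProd.symm.measurable

lemma fub2 {G : ℂ → ℝ≥0∞} (hG : Measurable G) :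
    ∫⁻ x, G x = ∫⁻ x : ℝ, ∫⁻ t : ℝ, G ⟨x, t⟩ := by
  rw [← (Complex.volume_preserving_equiv_real_prod.symm).lintegral_comp hG]
  rw [Measure.volume_eq_prod, lintegral_prod]
  · rfl
  · exact (hG.comp Complex.measurableEquivRealProd.symm.measurable).aemeasurable

lemma mk_meas : Measurable (fun p : ℝ × ℝ => (⟨p.1, p.2⟩ : ℂ)) :=
  Complex.measurableEquivRealProd.symm.measurable

lemma ll (a b : ℕ → ℝ≥0∞) :
    liminf a atTop + liminf b atTop ≤ liminf (fun n => a n + b n) atTop := by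
  rw [liminf_eq_iSup_iInf_of_nat, liminf_eq_iSup_iInf_of_nat, liminf_eq_iSup_iInf_of_nat]
  rw [ENNReal.iSup_add_iSup_of_monotone]
  · refine iSup_mono fun n => ?_
    refine le_iInf₂ fun i hi => ?_
    exact add_le_add (iInf₂_le i hi) (iInf₂_le i hi)
  · intro i j hij
    exact biInf_mono fun k hk => hij.trans hk
  · intro i j hij
    exact biInf_mono fun k hk => hij.trans hk

theorem c2 : S_C2 := by
  intro w u A P hw hw0 hu hc hs hu0 huw hA hP
  -- `P ≥ 0`
  have hP0 : 0 ≤ P := by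
    have h1 : TW w (fun _ => (0 : ℂ)) := by
      refine ⟨contDiff_const, HasCompactSupport.zero, ?_, ?_⟩
      · intro x hx
        have : tsupport (fun _ : ℂ => (0 : ℂ)) = ∅ := by
          rw [tsupport_eq_empty_iff]; rfl
        rw [this] at hx; exact hx.elim
      · intro x; simpa using hw0 x
    have h2 := hP _ h1
    have h3 : ∀ x, dv2 (fun _ => (0 : ℂ)) x = 0 := by
      intro x; unfold dv2; simp
    simp_rw [h3] at h2
    simpa using h2
  -- the integrals
  let U : ℂ → ℂ → ℝ≥0∞ := fun v x => ENNReal.ofReal (u x * |sg A v x|)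
  have hUm : ∀ v, Measurable (U v) := fun v =>
    (hu.measurable.mul (sg_meas hA v).abs).ennreal_ofReal
  have hUi : ∀ v, Integrable (fun x => u x * |sg A v x|) := fun v =>
    (hu.integrable_of_hasCompactSupport hc).mul_bdd (c := 1) (sg_meas hA v).abs.aestronglyMeasurable
      (Eventually.of_forall fun x => by simpa using sg_abs A v x)
  have hU : ∀ v, ∫⁻ x, U v x = ENNReal.ofReal (∫ x, u x * |sg A v x|) := fun v =>
    (ofReal_integral_eq_lintegral_ofReal (hUi v)
      (Eventually.of_forall fun x => mul_nonneg (hu0 x) (abs_nonneg _))).symm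
  -- Fatou
  have f1 : (∫⁻ y : ℝ, ev (fun t => u ⟨t, y⟩) {t | (⟨t, y⟩ : ℂ) ∈ A}) ≤
      liminf (fun n : ℕ => ((n : ℝ≥0∞) + 1) * ∫⁻ x, U (((1 / ((n : ℝ) + 1) : ℝ)) : ℂ) x) atTop := by
    have e1 : ∀ (n : ℕ) (y : ℝ), ((n : ℝ≥0∞) + 1) * ∫⁻ t : ℝ, ENNReal.ofReal (u ⟨t, y⟩ *
        |{t | (⟨t, y⟩ : ℂ) ∈ A}.indicator (fun _ => (1 : ℝ)) (t + 1 / ((n : ℝ) + 1)) -
          {t | (⟨t, y⟩ : ℂ) ∈ A}.indicator (fun _ => (1 : ℝ)) t|) =
        ((n : ℝ≥0∞) + 1) * ∫⁻ t : ℝ, U (((1 / ((n : ℝ) + 1) : ℝ)) : ℂ) ⟨t, y⟩ := by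
      intro n y
      congr 1
      refine lintegral_congr fun t => ?_
      simp only [U, sg]
      rw [abs_sub_comm]
      have e2 : ∀ s : ℝ, (⟨t, y⟩ : ℂ) + (s : ℂ) = ⟨t + s, y⟩ := fun s => by
        apply Complex.ext <;> simp
      rw [e2]
      rfl
    unfold ev
    simp_rw [e1]
    have m1 : ∀ v, Measurable (fun y : ℝ => ∫⁻ t : ℝ, U v ⟨t, y⟩) := fun v =>
      ((hUm v).comp mk_meas).lintegral_prod_left'
    refine (lintegral_liminf_le ?_).trans (le_of_eq ?_)
    · intro n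
      exact (m1 _).const_mul _
    · congr 1; ext n
      rw [lintegral_const_mul _ (m1 _), ← fub1 (hUm _)]
  have f2 : (∫⁻ x : ℝ, ev (fun t => u ⟨x, t⟩) {t | (⟨x, t⟩ : ℂ) ∈ A}) ≤
      liminf (fun n : ℕ => ((n : ℝ≥0∞) + 1) *
        ∫⁻ x, U (((1 / ((n : ℝ) + 1) : ℝ)) * Complex.I) x) atTop := by
    have e1 : ∀ (n : ℕ) (x : ℝ), ((n : ℝ≥0∞) + 1) * ∫⁻ t : ℝ, ENNReal.ofReal (u ⟨x, t⟩ *
        |{t | (⟨x, t⟩ : ℂ) ∈ A}.indicator (fun _ => (1 : ℝ)) (t + 1 / ((n : ℝ) + 1)) -
          {t | (⟨x, t⟩ : ℂ) ∈ A}.indicator (fun _ => (1 : ℝ)) t|) =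
        ((n : ℝ≥0∞) + 1) * ∫⁻ t : ℝ, U (((1 / ((n : ℝ) + 1) : ℝ)) * Complex.I) ⟨x, t⟩ := by
      intro n x
      congr 1
      refine lintegral_congr fun t => ?_
      simp only [U, sg]
      rw [abs_sub_comm]
      have e2 : ∀ s : ℝ, (⟨x, t⟩ : ℂ) + (s : ℂ) * Complex.I = ⟨x, t + s⟩ := fun s => by
        apply Complex.ext <;> simp
      rw [e2]
      rfl
    unfold ev
    simp_rw [e1]
    have m1 : ∀ v, Measurable (fun x : ℝ => ∫⁻ t : ℝ, U v ⟨x, t⟩) := fun v =>
      ((hUm v).comp mk_meas).lintegral_prod_right'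
    refine (lintegral_liminf_le ?_).trans (le_of_eq ?_)
    · intro n
      exact (m1 _).const_mul _
    · congr 1; ext n
      rw [lintegral_const_mul _ (m1 _), ← fub2 (hUm _)]
  refine (add_le_add f1 f2).trans ((ll _ _).trans ?_)
  simp_rw [← mul_add, hU]
  -- the estimate with loss
  have main : ∀ δ : ℝ, 0 < δ → δ < 1 →
      liminf (fun n : ℕ => ((n : ℝ≥0∞) + 1) *
        (ENNReal.ofReal (∫ x, u x * |sg A (((1 / ((n : ℝ) + 1) : ℝ)) : ℂ) x|) +
        ENNReal.ofReal (∫ x, u x * |sg A (((1 / ((n : ℝ) + 1) : ℝ)) * Complex.I) x|))) atTop ≤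
      ENNReal.ofReal (√2 * P / (1 - δ)) := by
    intro δ hδ hδ1
    obtain ⟨r, hr, H⟩ := near hw hw0 hc hs hu0 huw hδ hδ1
    have h1 : ∀ᶠ n : ℕ in atTop, 1 / ((n : ℝ) + 1) < r / 2 :=
      tendsto_one_div_add_atTop_nhds_zero_nat.eventually (gt_mem_nhds (by positivity))
    refine (liminf_le_liminf (v := fun _ : ℕ => ENNReal.ofReal (√2 * P / (1 - δ))) ?_).trans
      (le_of_eq (liminf_const _))
    filter_upwards [h1] with n hn
    have hn0 : (0 : ℝ) < (n : ℝ) + 1 := by positivity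
    have h2 := key2 hw0 hu hc hu0 hA hP hδ1 hr H (h := 1 / ((n : ℝ) + 1)) (by positivity) hn.le
    have p1 : 0 ≤ ∫ x, u x * |sg A (((1 / ((n : ℝ) + 1) : ℝ)) : ℂ) x| :=
      integral_nonneg fun x => mul_nonneg (hu0 x) (abs_nonneg _)
    have p2 : 0 ≤ ∫ x, u x * |sg A (((1 / ((n : ℝ) + 1) : ℝ)) * Complex.I) x| :=
      integral_nonneg fun x => mul_nonneg (hu0 x) (abs_nonneg _)
    have e3 : ((n : ℝ≥0∞) + 1) = ENNReal.ofReal ((n : ℝ) + 1) := by
      rw [ENNReal.ofReal_add n.cast_nonneg zero_le_one, ENNReal.ofReal_natCast, ENNReal.ofReal_one]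
    rw [e3, ← ENNReal.ofReal_add p1 p2, ← ENNReal.ofReal_mul hn0.le]
    apply ENNReal.ofReal_le_ofReal
    rw [le_div_iff₀ (by linarith)]
    have h3 : ((n : ℝ) + 1) * (√2 * (1 / ((n : ℝ) + 1)) * P) = √2 * P := by field_simp
    rw [← h3]
    calc ((n : ℝ) + 1) * ((∫ x, u x * |sg A (((1 / ((n : ℝ) + 1) : ℝ)) : ℂ) x|) +
          ∫ x, u x * |sg A (((1 / ((n : ℝ) + 1) : ℝ)) * Complex.I) x|) * (1 - δ) =
        ((n : ℝ) + 1) * ((1 - δ) * ((∫ x, u x * |sg A (((1 / ((n : ℝ) + 1) : ℝ)) : ℂ) x|) +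
          ∫ x, u x * |sg A (((1 / ((n : ℝ) + 1) : ℝ)) * Complex.I) x|)) := by ring
      _ ≤ _ := by gcongr
  -- `δ → 0`
  have hlim : Tendsto (fun δ : ℝ => ENNReal.ofReal (√2 * P / (1 - δ))) (𝓝[>] 0)
      (𝓝 (ENNReal.ofReal (√2 * P))) := by
    have h1 : ContinuousAt (fun δ : ℝ => √2 * P / (1 - δ)) 0 := by
      apply ContinuousAt.div continuousAt_const (by fun_prop)
      norm_num
    have h2 : Tendsto (fun δ : ℝ => √2 * P / (1 - δ)) (𝓝[>] 0) (𝓝 (√2 * P)) := by
      have := h1.tendsto.mono_left (nhdsWithin_le_nhds (s := Ioi (0 : ℝ)))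
      simpa using this
    exact (ENNReal.continuous_ofReal.tendsto _).comp h2
  refine ge_of_tendsto hlim ?_
  filter_upwards [Ioo_mem_nhdsGT (zero_lt_one (α := ℝ))] with δ hδ
  exact main δ hδ.1 hδ.2

end Pool.Agent.TH742.HU
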